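import Mathlib
import Pool.Agent.Run7.h77.Galvin

/-!
# MP_a3089e_lc: fine normal ultrafilters over `P_κ(κ⁺)` and the Galvin property

If `2 ^ κ ≤ κ⁺⁺` then no fine normal ultrafilter over `P_κ(κ⁺)` has the property
`Gal(U, κ, 2 ^ κ⁺)`.
-/

namespace Pool.Agent.Results.MP_a3089e_lc.GalvinFails

open Cardinal

universe u

theorem result (κ : Cardinal.{u}) (X : Type u) (hκ : ℵ₀ < κ) (hX : #X = Order.succ κ)
    (hpow : (2 : Cardinal.{u}) ^ κ ≤ Order.succ (Order.succ κ))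
    (U : Ultrafilter {x : Set X // #x < κ})
    (hfine : ∀ a : X, {x : {x : Set X // #x < κ} | a ∈ x.1} ∈ U)
    (hnormal : ∀ f : {x : Set X // #x < κ} → X,
        {x : {x : Set X // #x < κ} | f x ∈ x.1} ∈ U →
        ∃ a : X, {x : {x : Set X // #x < κ} | f x = a} ∈ U) :
    ∃ S : Set (Set {x : Set X // #x < κ}),
      (∀ s ∈ S, s ∈ U) ∧ #S = (2 : Cardinal.{u}) ^ Order.succ κ ∧
      ∀ T ⊆ S, #T = κ → ⋂₀ T ∉ U :=
  Run7.h77.Galvin.main hκ hX hpow U hfine hnormal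

end Pool.Agent.Results.MP_a3089e_lc.GalvinFails
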